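import Pool.Agent.Helper27.LG.Main

set_option autoImplicit false

namespace Pool.Agent.Results.MP_54e5d7_al.LinearGroups

/-- The kernel of right multiplication by the matrix `A` on row vectors of length `m` over
`ℓ²(G)`. -/
def kernel {G : Type} [Group G] {m n : ℕ} (A : Matrix (Fin m) (Fin n) (G →₀ ℂ)) :
    Set (lp (fun _ : Fin m × G => ℂ) 2) :=
  {x | ∀ (j : Fin n) (g : G),
    ∑ i : Fin m, (A i j).sum (fun h c => x (i, g * h⁻¹) * c) = 0}

open Classical in
/-- The von Neumann dimension of this kernel: the sum over `i` of one minus the squared distance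
from the basis vector at `(i, 1)` to the kernel, that is, the trace of the projection onto the
kernel. -/
noncomputable def kerDim {G : Type} [Group G] {m n : ℕ} (A : Matrix (Fin m) (Fin n) (G →₀ ℂ)) :
    ℝ :=
  ∑ i : Fin m, (1 - (Metric.infDist
    (lp.single 2 (i, (1 : G)) (1 : ℂ) : lp (fun _ : Fin m × G => ℂ) 2) (kernel A)) ^ 2)

/-- Some field extension of the field `L` contains a root of unity `ζ` of order a power of two, at
least four, with `ζ - ζ⁻¹` in `L`. (For order four this says that `-1` is a square in `L`, for order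
eight that `-2` is a square in `L`. For general order it says that the intersection of `L` with the
field of all roots of unity of order a power of two has no real embedding.) -/
def NonReal (L : Type) [Field L] : Prop :=
  ∃ (F : Type) (_ : Field F) (_ : Algebra L F) (s : ℕ) (ζ : F), 2 ≤ s ∧
    IsPrimitiveRoot ζ (2 ^ s) ∧ ∃ x : L, algebraMap L F x = ζ - ζ⁻¹

/-- Let `R` be an integrally closed domain of characteristic zero with field of fractions `L`. Let
`G` be a group with a faithful representation by invertible matrices of size `N` over `L`, for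
example `G = GL_N(R)` or `G = GL_N(L)`, and let `d` be divisible by the orders of all finite
subgroups of `GL_N(R)`. Then for every `m × n` matrix `A` over the complex group ring of `G` the
product of `2 ^ (N / 2)`, `d` and `n - m + dim ker A` is an integer, and the factor `2 ^ (N / 2)` is
not needed if `-1` is a square in `R`, or if `L` is `NonReal`. -/
theorem result (R L : Type) [CommRing R] [IsDomain R] [IsIntegrallyClosed R] [CharZero R]
    [Field L] [Algebra R L] [IsFractionRing R L] (G : Type) [Group G] (N : ℕ)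
    (θ : G →* Matrix.GeneralLinearGroup (Fin N) L) (hθ : Function.Injective θ) (d : ℕ)
    (hd : ∀ H : Subgroup (Matrix.GeneralLinearGroup (Fin N) R), Finite H → Nat.card H ∣ d)
    (m n : ℕ) (A : Matrix (Fin m) (Fin n) (G →₀ ℂ)) :
    (∃ z : ℤ, ((2 ^ (N / 2) * d : ℕ) : ℝ) * ((n : ℝ) - (m : ℝ) + kerDim A) = z) ∧
    (((∃ x : R, x ^ 2 = -1) ∨ NonReal L) →
      ∃ z : ℤ, (d : ℝ) * ((n : ℝ) - (m : ℝ) + kerDim A) = z) := by
  have hL : CharZero L := charZero_of_injective_algebraMap (IsFractionRing.injective R L)
  have h1 : kerDim A = Pool.Agent.H80R2.BC.vdim (Pool.Agent.H80R2.BC.kerA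
    (Pool.Agent.W656.VA.cv A)) := Pool.Agent.W656.VA.kerDim_eq A
  constructor
  · obtain ⟨z, hz⟩ := Pool.Agent.Helper27.LG.main1 (R := R) θ hθ d hd (Pool.Agent.W656.VA.cv A)
    refine ⟨(2 ^ (N / 2) * d : ℕ) * (n - m) + z, ?_⟩
    rw [h1, mul_add, hz]
    push_cast
    ring
  · intro hR
    have hR' : (∃ x : R, x * x = -1) ∨ ∃ s, 2 ≤ s ∧ Pool.Agent.Helper27.LG.NRs L s := by
      rcases hR with ⟨x, hx⟩ | ⟨F, i1, i2, s, ζ, h2, h3, h4⟩
      · exact Or.inl ⟨x, by rw [← hx, pow_two]⟩
      · exact Or.inr ⟨s, h2, F, i1, i2, ζ, h3, h4⟩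
    obtain ⟨z, hz⟩ := Pool.Agent.Helper27.LG.main2 (R := R) θ hθ d hd hR'
      (Pool.Agent.W656.VA.cv A)
    refine ⟨d * (n - m) + z, ?_⟩
    rw [h1, mul_add, hz]
    push_cast
    ring

end Pool.Agent.Results.MP_54e5d7_al.LinearGroups
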