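import Pool.Agent.Helper93.IW.Mink2

set_option autoImplicit false

namespace Pool.Agent.Results.MP_54e5d7_al.MinkowskiBound

/-- The kernel of right multiplication by the matrix `A` on row vectors of length `m` over
`ℓ²(G)`. -/
def kernel {G : Type} [Group G] {m n : ℕ} (A : Matrix (Fin m) (Fin n) (G →₀ ℂ)) :
    Set (lp (fun _ : Fin m × G => ℂ) 2) :=
  {x | ∀ (j : Fin n) (g : G),
    ∑ i : Fin m, (A i j).sum (fun h c => x (i, g * h⁻¹) * c) = 0}

open Classical in
/-- The von Neumann dimension of this kernel: the sum over `i` of one minus the squared distance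
from the basis vector at `(i, 1)` to the kernel, that is, the trace of the projection onto the
kernel. -/
noncomputable def kerDim {G : Type} [Group G] {m n : ℕ} (A : Matrix (Fin m) (Fin n) (G →₀ ℂ)) :
    ℝ :=
  ∑ i : Fin m, (1 - (Metric.infDist
    (lp.single 2 (i, (1 : G)) (1 : ℂ) : lp (fun _ : Fin m × G => ℂ) 2) (kernel A)) ^ 2)

/-- `H` is residually unitriangular: every nontrivial element is detected by a homomorphism to
upper unitriangular integer matrices. For a finitely generated group this means residually
torsion-free nilpotent. -/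
def ResUni (H : Type) [Group H] : Prop :=
  ∀ h : H, h ≠ 1 → ∃ (m : ℕ) (T : H →* Matrix (Fin m) (Fin m) ℤ),
    (∀ (x : H) (i j : Fin m), (j < i → T x i j = 0) ∧ T x i i = 1) ∧ T h ≠ 1

/-- The Minkowski number: the product over the primes `l` of `l ^ (k + v)`, where `k` is the
integer part of `n / (l - 1)` and `v` is the exponent of `l` in `k!`. It is the least common
multiple of the orders of the finite subgroups of the group of invertible integer matrices of
size `n` (Minkowski). -/
def minkowski (n : ℕ) : ℕ :=
  ∏ l ∈ (Finset.range (n + 2)).filter Nat.Prime,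
    l ^ (n / (l - 1) + padicValNat l (n / (l - 1)).factorial)

/-- Let `H` be a finitely generated residually unitriangular group, let `b` be the rank of its
abelianisation, and let `G` be a group of automorphisms of `H`. Then for every `m × n` matrix `A`
over the complex group ring of `G` the product of `2 ^ (b / 2)`, the Minkowski number of `b` and
`n - m + dim ker A` is an integer. -/
theorem result (H G : Type) [Group H] [Group G] (hfg : Group.FG H) (hH : ResUni H)
    (act : G →* MulAut H) (hact : Function.Injective act) (b : ℕ)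
    (hb : Module.finrank ℤ (Additive (Abelianization H)) = b)
    (m n : ℕ) (A : Matrix (Fin m) (Fin n) (G →₀ ℂ)) :
    ∃ z : ℤ, ((2 ^ (b / 2) * minkowski b : ℕ) : ℝ) * ((n : ℝ) - (m : ℝ) + kerDim A) = z := by
  have hfg' : Group.FG H := hfg
  have hH' : Pool.Agent.Helper93.IW.RU H := hH
  have hex := Pool.Agent.Helper93.IW.exists_F H
  rw [hb] at hex
  obtain ⟨F, s, N, hs, hN, hF⟩ := hex
  have key : ∃ z : ℤ, ((2 ^ (b / 2) * Pool.Agent.Helper93.IW.mink b : ℕ) : ℝ) * kerDim A = z := by
    apply Pool.Agent.Helper93.IW.combine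
    · exact mul_ne_zero (pow_ne_zero _ two_ne_zero) (Pool.Agent.Helper93.IW.mink_ne_zero b)
    · intro l hl
      obtain ⟨p, hpB, hpp, hle⟩ := Pool.Agent.Helper93.IW.exists_good_prime b l hl (max 2 N)
      have hp : p.Prime := hpp.out
      have hp2 : p ≠ 2 := by
        have := le_max_left 2 N
        omega
      have hpN : Nat.Coprime N p := by
        rw [Nat.coprime_comm, hp.coprime_iff_not_dvd]
        intro h
        have h1 := Nat.le_of_dvd hN h
        have := le_max_right 2 N
        omega
      refine ⟨_, Nat.card_pos.ne', hle, ?_⟩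
      let L : Subgroup G := (Pool.Agent.Helper93.IW.quotAct act p).toHomUnits.ker
      have hL : ∀ g : G, g ∈ L ↔ ∀ h : H, act g h * h⁻¹ ∈ Pool.Agent.Helper93.IW.Dp H p := by
        intro g
        rw [MonoidHom.mem_ker, ← Pool.Agent.Helper93.IW.quotAct_eq_one]
        exact ⟨fun h => congrArg Units.val h, fun h => Units.ext h⟩
      have hfi : L.FiniteIndex := Pool.Agent.Helper93.IW.finiteIndex_level hp.pos act L hL
      have hfin : Finite (G ⧸ L) := Subgroup.finite_quotient_of_finiteIndex
      have hC : Pool.Agent.Helper93.IW.CR ℤ_[p] (p : ℤ_[p]) L :=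
        (Pool.Agent.Helper93.IW.CM_aut p hp.ne_zero (Pool.Agent.Helper93.IW.RU.map hH')
          (act.comp L.subtype) (hact.comp Subtype.val_injective)
          (fun γ h => (hL γ).1 γ.2 h)).toCR
      obtain ⟨z, hz⟩ := Pool.Agent.Helper93.IW.CR.dim_fi hp2 L hC (Pool.Agent.W656.VA.cv A)
      have h1 : kerDim A = _ := Pool.Agent.W656.VA.kerDim_eq A
      obtain ⟨k, hk⟩ := Pool.Agent.Helper93.IW.index_dvd act F s hs hN hF p hpN L hL
      refine ⟨k * z, ?_⟩
      rw [hk, h1]
      push_cast
      rw [← hz]
      ring
  obtain ⟨z, hz⟩ := key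
  refine ⟨(2 ^ (b / 2) * Pool.Agent.Helper93.IW.mink b : ℕ) * (n - m) + z, ?_⟩
  have h2 : minkowski b = Pool.Agent.Helper93.IW.mink b := rfl
  rw [h2, mul_add, hz]
  push_cast
  ring

end Pool.Agent.Results.MP_54e5d7_al.MinkowskiBound
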