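import Pool.Agent.Helper93.IW.OutE

set_option autoImplicit false

namespace Pool.Agent.Results.MP_54e5d7_al.OuterAutomorphisms

/-- The orders of the finite subgroups of `G` are bounded, and `d` is their least common
multiple. -/
def IsLcm (G : Type) [Group G] (d : ℕ) : Prop :=
  (∃ N : ℕ, ∀ H : Subgroup G, Finite H → Nat.card H ≤ N) ∧
    (∀ H : Subgroup G, Finite H → Nat.card H ∣ d) ∧
    ∀ e : ℕ, (∀ H : Subgroup G, Finite H → Nat.card H ∣ e) → d ∣ e

/-- The kernel of right multiplication by the matrix `A` on row vectors of length `m` over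
`ℓ²(G)`. -/
def kernel {G : Type} [Group G] {m n : ℕ} (A : Matrix (Fin m) (Fin n) (G →₀ ℂ)) :
    Set (lp (fun _ : Fin m × G => ℂ) 2) :=
  {x | ∀ (j : Fin n) (g : G),
    ∑ i : Fin m, (A i j).sum (fun h c => x (i, g * h⁻¹) * c) = 0}

open Classical in
/-- The von Neumann dimension of this kernel: the sum over `i` of one minus the squared distance
from the basis vector at `(i, 1)` to the kernel, that is, the trace of the projection onto the
kernel. -/
noncomputable def kerDim {G : Type} [Group G] {m n : ℕ} (A : Matrix (Fin m) (Fin n) (G →₀ ℂ)) :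
    ℝ :=
  ∑ i : Fin m, (1 - (Metric.infDist
    (lp.single 2 (i, (1 : G)) (1 : ℂ) : lp (fun _ : Fin m × G => ℂ) 2) (kernel A)) ^ 2)

/-- Inner automorphisms form a normal subgroup. -/
instance innNormal (H : Type) [Group H] : (MulAut.conj : H →* MulAut H).range.Normal :=
  Pool.Agent.Helper93.IW.Inn_normal H

/-- The outer automorphism group of `H`: the quotient of the group of automorphisms by the subgroup
of the inner automorphisms. -/
abbrev Out (H : Type) [Group H] : Type := MulAut H ⧸ (MulAut.conj : H →* MulAut H).range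

/-- Let `F` be the free group of finite rank `r`, let `p` be an odd prime, let `G` be a group of outer
automorphisms of `F`, and let `N` be the subgroup of the elements of `G` which act trivially on the
quotient of `F` by the subgroup generated by the commutators and the `p`-th powers. Then `N` has
finite index in `G`, the orders of the finite subgroups of `G` are bounded, their least common
multiple divides the index of `N`, and for every `m × n` matrix `A` over the complex group ring of
`G` the product of the index of `N` with `n - m + dim ker A` is an integer. In particular, if the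
least common multiple equals the index, for instance if `G = N`, then `G` satisfies the Atiyah
conjecture with complex coefficients. -/
theorem result (p : ℕ) [Fact p.Prime] (hp : p ≠ 2) (r : ℕ) (G : Type) [Group G]
    (act : G →* Out (FreeGroup (Fin r))) (hact : Function.Injective act) (N : Subgroup G)
    (hN : ∀ g : G, g ∈ N ↔ ∃ φ : MulAut (FreeGroup (Fin r)),
      (QuotientGroup.mk φ : Out (FreeGroup (Fin r))) = act g ∧
        ∀ h : FreeGroup (Fin r), φ h * h⁻¹ ∈ commutator (FreeGroup (Fin r)) ⊔
          Subgroup.closure (Set.range fun x : FreeGroup (Fin r) => x ^ p)) :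
    N.index ≠ 0 ∧ (∃ d : ℕ, IsLcm G d) ∧ (∀ d : ℕ, IsLcm G d → d ∣ N.index) ∧
      ∀ (m n : ℕ) (A : Matrix (Fin m) (Fin n) (G →₀ ℂ)),
        ∃ z : ℤ, (N.index : ℝ) * ((n : ℝ) - (m : ℝ) + kerDim A) = z := by
  have hpp : p.Prime := Fact.out
  have hNeq : N = (Pool.Agent.Helper93.IW.lvl act p).map (Pool.Agent.Helper93.IW.pq act) := by
    ext g
    rw [hN, Pool.Agent.Helper93.IW.mem_map_lvl]
    exact Iff.rfl
  have hfi : N.FiniteIndex := by
    rw [hNeq]
    exact Pool.Agent.Helper93.IW.map_lvl_fi act p hpp.pos
  have hfin : Finite (G ⧸ N) := Subgroup.finite_quotient_of_finiteIndex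
  have hC : Pool.Agent.Helper93.IW.CR ℤ_[p] (p : ℤ_[p]) N := by
    rw [hNeq]
    exact Pool.Agent.Helper93.IW.CR_out act hact p
  have hdiv := Pool.Agent.Helper93.IW.card_dvd_index N (hC.tf hp)
  have hpos : 0 < N.index := Nat.pos_of_ne_zero hfi.index_ne_zero
  refine ⟨hpos.ne', Pool.Agent.Helper93.IW.exists_lcm hpos hdiv, fun d hd => hd.2.2 _ hdiv, ?_⟩
  intro m n A
  obtain ⟨z, hz⟩ := Pool.Agent.Helper93.IW.CR.dim_fi hp N hC (Pool.Agent.W656.VA.cv A)
  have h1 : kerDim A = _ := Pool.Agent.W656.VA.kerDim_eq A
  refine ⟨N.index * (n - m) + z, ?_⟩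
  rw [h1, mul_add, hz]
  push_cast
  ring

end Pool.Agent.Results.MP_54e5d7_al.OuterAutomorphisms
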